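import Mathlib
import Pool.Agent.W223.HZ.Stms

/-!
Project HZ (MP_f2148a_nt), part IN1: an interval and a cell, chart 1.
-/

set_option autoImplicit false

namespace Pool.Agent.W369.HZ.IN1

open Polynomial Pool.Agent.W223.HZ

/-- the polynomial with given coefficients -/
noncomputable def pol {m : ℕ} (v : Fin m → ℤ) : ℤ[X] := ∑ j : Fin m, C (v j) * X ^ (j : ℕ)

theorem pol_eval {m : ℕ} (v : Fin m → ℤ) (t : ℤ) :
    (pol v).eval t = ∑ j : Fin m, v j * t ^ (j : ℕ) := by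
  unfold pol
  simp [eval_finsetSum]

theorem pol_coeff_fin {m : ℕ} (v : Fin m → ℤ) (k : Fin m) : (pol v).coeff k = v k := by
  unfold pol
  rw [finsetSum_coeff, Finset.sum_eq_single k]
  · simp
  · intro j _ hj
    rw [coeff_C_mul_X_pow, if_neg]
    intro h
    exact hj (Fin.ext h.symm)
  · intro h
    exact absurd (Finset.mem_univ k) h

theorem pol_coeff_ge {m : ℕ} (v : Fin m → ℤ) (k : ℕ) (hk : m ≤ k) : (pol v).coeff k = 0 := by
  unfold pol
  rw [finsetSum_coeff]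
  apply Finset.sum_eq_zero
  intro j _
  rw [coeff_C_mul_X_pow, if_neg]
  have := j.2
  omega

theorem pol_natDegree {m : ℕ} (v : Fin m → ℤ) (hm : 0 < m) : (pol v).natDegree < m := by
  by_contra h
  push Not at h
  have h1 := pol_coeff_ge v (pol v).natDegree h
  rw [coeff_natDegree, leadingCoeff_eq_zero] at h1
  rw [h1, natDegree_zero] at h
  omega

theorem pol_ne {m : ℕ} (v : Fin m → ℤ) (k : Fin m) (hk : v k ≠ 0) : pol v ≠ 0 := by
  intro h
  apply hk
  rw [← pol_coeff_fin v k, h, coeff_zero]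

theorem pol_coeff_le {m : ℕ} (v : Fin m → ℤ) (H : ℝ) (hH : 0 ≤ H)
    (hv : ∀ j, |(v j : ℝ)| ≤ H) (k : ℕ) : |((pol v).coeff k : ℝ)| ≤ H := by
  rcases lt_or_ge k m with h | h
  · have h1 := pol_coeff_fin v ⟨k, h⟩
    simp only at h1
    rw [h1]
    exact hv _
  · rw [pol_coeff_ge v k h]
    simpa using hH

theorem t (hV : Pool.Agent.W223.HZ.StmtVA1) (hR : Pool.Agent.W223.HZ.StmtREL)
    (hC : Pool.Agent.W223.HZ.StmtCUB) (hA : Pool.Agent.W223.HZ.StmtINA) :
    Pool.Agent.W223.HZ.StmtIN1 := by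
  obtain ⟨c₀, S₁, hc₀, hS₁, hV⟩ := hV
  obtain ⟨S₂, hS₂, hA⟩ := hA
  refine ⟨c₀, max (max S₁ S₂) 10, hc₀, le_max_of_le_left (le_max_of_le_left hS₁), ?_⟩
  intro R T V a b c p q 𝒟 ha hcube hR20 hT hS hVlow hVlog hgood hcell hint
  have hS1 : S₁ ≤ R * T ^ 3 := ((le_max_left _ _).trans (le_max_left _ _)).trans hS
  have hS2 : S₂ ≤ R * T ^ 3 := ((le_max_right _ _).trans (le_max_left _ _)).trans hS
  have hS10 : 10 ≤ R * T ^ 3 := (le_max_right _ _).trans hS
  have hTS : T ≤ R * T ^ 3 := by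
    have h1 : 1 / 4 ≤ T ^ 2 := by nlinarith
    have h2 : 1 ≤ R * T ^ 2 := by nlinarith
    calc T = T * 1 := (mul_one T).symm
      _ ≤ T * (R * T ^ 2) := by gcongr
      _ = R * T ^ 3 := by ring
  generalize hSdef : R * T ^ 3 = S at *
  have hS0 : 0 < S := by linarith
  have hSone : 1 ≤ S := by linarith
  -- log S ≥ 1
  have hlogS : 1 ≤ Real.log S := by
    rw [Real.le_log_iff_exp_le hS0]
    have := Real.exp_one_lt_d9
    linarith
  have hVpos : 0 < V := lt_of_lt_of_le (Real.rpow_pos_of_pos hS0 _) hVlow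
  have hσdef : V = S ^ (Real.log V / Real.log S) := by
    rw [Real.rpow_def_of_pos hS0, mul_div_cancel₀ _ (by linarith), Real.exp_log hVpos]
  have hlogV : 1 / 2 * Real.log S ≤ Real.log V := by
    have h1 := Real.log_le_log (Real.rpow_pos_of_pos hS0 _) hVlow
    rwa [Real.log_rpow hS0] at h1
  generalize hσ : Real.log V / Real.log S = σ at hσdef
  have hσhalf : 1 / 2 ≤ σ := by
    rw [← hσ, le_div_iff₀ (by linarith)]
    exact hlogV
  have hσup : σ ≤ S ^ ((1 : ℝ) / 2500) := by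
    refine le_trans ?_ hVlog
    rw [← hσ]
    exact div_le_self (by linarith) hlogS
  obtain ⟨m, hm⟩ : ∃ m : ℕ, m = ⌈5 * σ⌉₊ := ⟨_, rfl⟩
  have hmpos : 0 < m := by
    rw [hm, Nat.ceil_pos]
    linarith
  obtain ⟨Λ, hΛ1, hΛm, hΛH, hΛfin⟩ := hA S σ m hS2 hσhalf hσup hm
  rcases 𝒟.eq_empty_or_nonempty with hD | ⟨d₀, hd₀⟩
  · rw [hD, Finset.card_empty]
    push_cast
    exact Real.rpow_nonneg hS0.le _
  -- the set is nonempty
  set L : ℝ := S ^ ((1 : ℝ) / 11) with hLdef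
  have hL1 : 1 ≤ L := Real.one_le_rpow hSone (by norm_num)
  have hSσ : 1 ≤ S ^ σ := Real.one_le_rpow hSone (by linarith)
  set H₀ : ℝ := 400 * S * S ^ σ * L ^ m with hH₀
  have hLm : 1 ≤ L ^ m := one_le_pow₀ hL1
  have hH₀1 : 1 ≤ H₀ := by
    have h1 : 1 ≤ 400 * S := by linarith
    have h2 : 1 ≤ 400 * S * S ^ σ := one_le_mul_of_one_le_of_one_le h1 hSσ
    exact one_le_mul_of_one_le_of_one_le h2 hLm
  have hτ : ∀ d ∈ 𝒟, |((d - d₀ : ℤ) : ℝ)| ≤ L := by
    intro d hd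
    have := hint d hd d₀ hd₀
    push_cast
    exact this
  have hpow : ∀ d ∈ 𝒟, ∀ j : Fin m, |((d - d₀ : ℤ) : ℝ)| ^ (j : ℕ) ≤ L ^ m := by
    intro d hd j
    calc |((d - d₀ : ℤ) : ℝ)| ^ (j : ℕ) ≤ L ^ (j : ℕ) := by
          gcongr
          exact hτ d hd
      _ ≤ L ^ m := pow_le_pow_right₀ hL1 j.2.le
  have hpb : ∀ d ∈ 𝒟, |(p d : ℝ)| ≤ 400 * S * S ^ σ := by
    intro d hd
    have h1 := (hgood d hd).1.hp
    refine h1.trans ?_
    rw [← hσdef]
    have h2 : T * V ≤ S * V := by gcongr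
    have h3 : 0 ≤ S * V := by positivity
    nlinarith
  have hqb : ∀ d ∈ 𝒟, |(q d : ℝ)| ≤ 400 * S * S ^ σ := by
    intro d hd
    have h1 := (hgood d hd).1.hq
    rw [← hσdef]
    have h2 : |(q d : ℝ)| * (1 / 2) ≤ |(q d : ℝ)| * T := by gcongr
    have h3 : V ≤ S * V := by nlinarith
    nlinarith [abs_nonneg (q d : ℝ)]
  let A : {d // d ∈ 𝒟} → Fin m ⊕ Fin m → ℤ := fun d =>
    Sum.elim (fun j : Fin m => p d * ((d : ℤ) - d₀) ^ (j : ℕ))
      (fun j : Fin m => q d * ((d : ℤ) - d₀) ^ (j : ℕ))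
  have hAb : ∀ i j, |(A i j : ℝ)| ≤ H₀ := by
    intro i j
    obtain ⟨d, hd⟩ := i
    rcases j with j | j
    · have e : (A ⟨d, hd⟩ (Sum.inl j) : ℝ) = (p d : ℝ) * ((d - d₀ : ℤ) : ℝ) ^ (j : ℕ) := by
        simp only [A, Sum.elim_inl]
        push_cast
        ring
      rw [e, abs_mul, abs_pow, hH₀]
      exact mul_le_mul (hpb d hd) (hpow d hd j) (by positivity) (by positivity)
    · have e : (A ⟨d, hd⟩ (Sum.inr j) : ℝ) = (q d : ℝ) * ((d - d₀ : ℤ) : ℝ) ^ (j : ℕ) := by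
        simp only [A, Sum.elim_inr]
        push_cast
        ring
      rw [e, abs_mul, abs_pow, hH₀]
      exact mul_le_mul (hqb d hd) (hpow d hd j) (by positivity) (by positivity)
  have hdet : ∀ f : Fin m ⊕ Fin m → {d // d ∈ 𝒟},
      Matrix.det (Matrix.of fun i j => A (f i) j) = 0 := by
    intro f
    have h1 := hV R T V σ m a b c d₀ (p d₀) (q d₀) (fun i => p (f i)) (fun i => q (f i))
      (fun i => (f i : ℤ)) ha hR20 hT (by rw [hSdef]; exact hS1) hσhalf (by rw [hSdef]; exact hσdef)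
      hm (fun i => hgood _ (f i).2) (hgood d₀ hd₀).1 (hgood d₀ hd₀).2
      (fun i j => hcell _ (f i).2 _ (f j).2) (fun i => hcell _ (f i).2 _ hd₀)
      (fun i => by rw [hSdef]; exact hint _ (f i).2 _ hd₀)
    exact h1
  obtain ⟨v, hv0, hvA, hvb⟩ := hR A H₀ hH₀1 ⟨⟨d₀, hd₀⟩⟩ hAb hdet
  have hcardκ : Fintype.card (Fin m ⊕ Fin m) = m + m := by simp
  rw [hcardκ] at hvb
  set H : ℝ := (((m + m : ℕ) : ℝ) * H₀) ^ (m + m) with hHdef
  have hmm : (1 : ℝ) ≤ ((m + m : ℕ) : ℝ) := by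
    have : 1 ≤ m + m := by omega
    exact_mod_cast this
  have hH1 : 1 ≤ H := one_le_pow₀ (one_le_mul_of_one_le_of_one_le hmm hH₀1)
  have hne : pol (fun j => v (Sum.inl j)) ≠ 0 ∨ pol (fun j => v (Sum.inr j)) ≠ 0 := by
    by_contra hcon
    push Not at hcon
    apply hv0
    funext j
    rcases j with j | j
    · by_contra h
      exact pol_ne (fun j => v (Sum.inl j)) j h hcon.1
    · by_contra h
      exact pol_ne (fun j => v (Sum.inr j)) j h hcon.2
  have hfin := hC a b c d₀ ha hcube (pol (fun j => v (Sum.inl j))) (pol (fun j => v (Sum.inr j))) m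
    hne (pol_natDegree _ hmpos) (pol_natDegree _ hmpos) L H Λ hL1 hH1 hΛ1 hΛm hΛH
    (pol_coeff_le _ H (by linarith) (fun j => hvb _))
    (pol_coeff_le _ H (by linarith) (fun j => hvb _))
    (𝒟.image fun d => d - d₀)
    (by
      intro τ hτ'
      obtain ⟨d, hd, rfl⟩ := Finset.mem_image.mp hτ'
      exact hτ d hd)
    (by
      intro τ hτ'
      obtain ⟨d, hd, rfl⟩ := Finset.mem_image.mp hτ'
      refine ⟨p d, q d, ?_, ?_⟩
      · have h1 := hvA ⟨d, hd⟩
        rw [Fintype.sum_sum_type] at h1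
        rw [pol_eval, pol_eval, Finset.mul_sum, Finset.mul_sum, ← h1]
        congr 1
        · refine Finset.sum_congr rfl fun j _ => ?_
          simp only [A, Sum.elim_inl]
          ring
        · refine Finset.sum_congr rfl fun j _ => ?_
          simp only [A, Sum.elim_inr]
          ring
      · have h1 := (hgood d hd).1.heq
        rw [add_sub_cancel]
        exact h1)
  have hcard : (𝒟.image fun d => d - d₀).card = 𝒟.card :=
    Finset.card_image_of_injective _ (fun x y h => by simpa using h)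
  rw [hcard] at hfin
  exact hfin.trans hΛfin

end Pool.Agent.W369.HZ.IN1
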